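import Mathlib

open Polynomial Filter Topology

namespace Pool.Agent.Results.MP_1bffc6_nt.FareyFull

/-- `maxAbs E P` is the supremum of `|P(z)|` over `z ∈ E`; it is the maximum when `E` is compact
and nonempty. -/
noncomputable def maxAbs (E : Set ℂ) (P : ℤ[X]) : ℝ :=
  sSup ((fun z : ℂ => ‖aeval z P‖) '' E)

/-- `mMonic E n` is `m_n(E)`: the infimum of `max_{z ∈ E} |P(z)|` over all monic integer
polynomials `P` of degree exactly `n`. -/
noncomputable def mMonic (E : Set ℂ) (n : ℕ) : ℝ :=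
  sInf {r : ℝ | ∃ P : ℤ[X], P.Monic ∧ P.natDegree = n ∧ r = maxAbs E P}

/-- The monic integer transfinite diameter, the limit of `m_n(E)^(1/n)`. -/
noncomputable def tauM (E : Set ℂ) : ℝ :=
  limUnder atTop (fun n : ℕ => (mMonic E n) ^ ((1 : ℝ) / n))

/-- The closed real interval `[u, v]`, as a set of complex numbers. -/
def realInterval (u v : ℝ) : Set ℂ := (fun x : ℝ => (x : ℂ)) '' Set.Icc u v

/-! ### The construction -/

/-- For `x` with `s = ε (B x - A)` in `[0, 1/b]` and `t = ε (a - b x)` in `[0, 1/B]` there is an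
integer polynomial of degree at most `n`, with prescribed coefficient `ε ^ n * e` in degree `n`,
which is small. -/
lemma exists_poly (a b A B ε : ℤ) (hb : 2 ≤ b) (hbB : b ≤ B) (hco : IsCoprime b B) (n : ℕ) :
    ∀ e : ℤ, ∃ P : ℤ[X], P.natDegree ≤ n ∧ P.coeff n = ε ^ n * e ∧
      ∀ x : ℝ, 0 ≤ (ε : ℝ) * (B * x - A) → (ε : ℝ) * (B * x - A) ≤ 1 / b →
        0 ≤ (ε : ℝ) * (a - b * x) → (ε : ℝ) * (a - b * x) ≤ 1 / B →
        |aeval x P| ≤ |(e : ℝ)| * (1 / ((b : ℝ) * B)) ^ n + 2 * n * b * (1 / (b : ℝ)) ^ n := by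
  have hbR : (2 : ℝ) ≤ b := by exact_mod_cast hb
  have hBR : (b : ℝ) ≤ B := by exact_mod_cast hbB
  have hb0 : (0 : ℝ) < b := by linarith
  have hB0 : (0 : ℝ) < B := by linarith
  induction n with
  | zero =>
    intro e
    refine ⟨C e, by simp, by simp, ?_⟩
    intro x _ _ _ _
    simp
  | succ n ih =>
    intro e
    -- choose the new coefficient modulo `b`
    obtain ⟨c, e', hc0, hcb, he⟩ : ∃ c e' : ℤ, 0 ≤ c ∧ c < b ∧ e = c * B ^ (n + 1) - b * e' := by
      obtain ⟨u, v, huv⟩ := hco.pow_right (n := n + 1)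
      -- u * b + v * B^(n+1) = 1
      refine ⟨(v * e) % b, ((v * e) % b * B ^ (n + 1) - e) / b, Int.emod_nonneg _ (by omega),
        Int.emod_lt_of_pos _ (by omega), ?_⟩
      have hdvd : b ∣ ((v * e) % b * B ^ (n + 1) - e) := by
        have h1 : (v * e) % b = v * e - b * (v * e / b) := by
          have := Int.emod_add_mul_ediv (v * e) b
          linarith
        rw [h1]
        refine ⟨-(v * e / b) * B ^ (n + 1) - u * e, ?_⟩
        have h2 : e = (u * b + v * B ^ (n + 1)) * e := by rw [huv, one_mul]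
        linear_combination -h2
      rw [Int.mul_ediv_cancel' hdvd]
      ring
    obtain ⟨P, hPd, hPc, hP⟩ := ih e'
    let S : ℤ[X] := C (ε * B) * X + C (-(ε * A))
    let T : ℤ[X] := C (-(ε * b)) * X + C (ε * a)
    have hSd : S.natDegree ≤ 1 := natDegree_linear_le
    have hTd : T.natDegree ≤ 1 := natDegree_linear_le
    have hSc : S.coeff 1 = ε * B := by
      simp only [S, coeff_add, coeff_C_mul, coeff_X_one, mul_one, coeff_C_succ, add_zero]
    have hTc : T.coeff 1 = -(ε * b) := by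
      simp only [T, coeff_add, coeff_C_mul, coeff_X_one, mul_one, coeff_C_succ, add_zero]
    refine ⟨C c * S ^ (n + 1) + P * T, ?_, ?_, ?_⟩
    · refine (natDegree_add_le _ _).trans (max_le ?_ ?_)
      · refine (natDegree_C_mul_le _ _).trans ?_
        refine (natDegree_pow_le).trans ?_
        nlinarith
      · refine (natDegree_mul_le).trans ?_
        omega
    · have h1 : (S ^ (n + 1)).coeff (n + 1) = (ε * B) ^ (n + 1) := by
        have := coeff_pow_of_natDegree_le (p := S) (m := n + 1) (n := 1) hSd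
        simpa [hSc] using this
      have h2 : (P * T).coeff (n + 1) = P.coeff n * T.coeff 1 :=
        coeff_mul_add_eq_of_natDegree_le hPd hTd
      rw [coeff_add, coeff_C_mul, h1, h2, hPc, hTc, he]
      ring
    · intro x hs0 hs1 ht0 ht1
      have hev : aeval x (C c * S ^ (n + 1) + P * T) =
          (c : ℝ) * ((ε : ℝ) * (B * x - A)) ^ (n + 1) +
            aeval x P * ((ε : ℝ) * (a - b * x)) := by
        simp [S, T]
        ring
      rw [hev]
      set s : ℝ := (ε : ℝ) * (B * x - A) with hs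
      set t : ℝ := (ε : ℝ) * (a - b * x) with ht
      have hPx := hP x hs0 hs1 ht0 ht1
      have hcR0 : (0 : ℝ) ≤ c := by exact_mod_cast hc0
      have hcR1 : (c : ℝ) ≤ b := by exact_mod_cast hcb.le
      have habs : |(c : ℝ) * s ^ (n + 1) + aeval x P * t| ≤
          b * (1 / (b : ℝ)) ^ (n + 1) + |aeval x P| * (1 / B) := by
        refine (abs_add_le _ _).trans (add_le_add ?_ ?_)
        · rw [abs_mul, abs_of_nonneg hcR0, abs_of_nonneg (pow_nonneg hs0 _)]
          exact mul_le_mul hcR1 (pow_le_pow_left₀ hs0 hs1 _) (pow_nonneg hs0 _) hb0.le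
        · rw [abs_mul, abs_of_nonneg ht0]
          exact mul_le_mul_of_nonneg_left ht1 (abs_nonneg _)
      have he' : |(e' : ℝ)| * b ≤ |(e : ℝ)| + b * B ^ (n + 1) := by
        have h1 : (b : ℝ) * e' = c * B ^ (n + 1) - e := by
          have : b * e' = c * B ^ (n + 1) - e := by linarith
          exact_mod_cast this
        have h2 : |(e' : ℝ)| * b = |(c : ℝ) * B ^ (n + 1) - e| := by
          rw [← h1, abs_mul, abs_of_pos hb0, mul_comm]
        rw [h2]
        have h3 := abs_sub (c * B ^ (n + 1) : ℝ) e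
        have h4 : |(c : ℝ) * B ^ (n + 1)| ≤ b * B ^ (n + 1) := by
          rw [abs_of_nonneg (by positivity)]
          exact mul_le_mul_of_nonneg_right hcR1 (by positivity)
        linarith
      refine habs.trans ?_
      have hstep : |aeval x P| * (1 / (B : ℝ)) ≤
          (|(e' : ℝ)| * (1 / ((b : ℝ) * B)) ^ n + 2 * n * b * (1 / (b : ℝ)) ^ n) * (1 / B) :=
        mul_le_mul_of_nonneg_right hPx (by positivity)
      refine (add_le_add le_rfl hstep).trans ?_
      have e1 : |(e' : ℝ)| * (1 / ((b : ℝ) * B)) ^ n * (1 / B) ≤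
          (|(e : ℝ)| + b * B ^ (n + 1)) * (1 / ((b : ℝ) * B)) ^ (n + 1) := by
        have : |(e' : ℝ)| * (1 / ((b : ℝ) * B)) ^ n * (1 / B) =
            (|(e' : ℝ)| * b) * (1 / ((b : ℝ) * B)) ^ (n + 1) := by
          rw [pow_succ]
          field_simp
        rw [this]
        exact mul_le_mul_of_nonneg_right he' (by positivity)
      have e2 : (b : ℝ) * B ^ (n + 1) * (1 / ((b : ℝ) * B)) ^ (n + 1) =
          b * (1 / (b : ℝ)) ^ (n + 1) := by
        rw [mul_assoc, ← mul_pow]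
        congr 2
        field_simp
      have e3 : 2 * (n : ℝ) * b * (1 / (b : ℝ)) ^ n * (1 / B) ≤
          2 * n * b * (1 / (b : ℝ)) ^ (n + 1) := by
        rw [pow_succ, ← mul_assoc]
        refine mul_le_mul_of_nonneg_left ?_ (by positivity)
        exact one_div_le_one_div_of_le hb0 hBR
      push_cast
      nlinarith [e1, e2, e3]

/-- A small monic integer polynomial of degree `n` on the set between `a/b` and `A/B`. -/
lemma exists_monic (a b A B ε : ℤ) (hb : 2 ≤ b) (hbB : b ≤ B) (hco : IsCoprime b B)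
    (hε : ε = 1 ∨ ε = -1) (n : ℕ) :
    ∃ P : ℤ[X], P.Monic ∧ P.natDegree = n ∧
      ∀ x : ℝ, 0 ≤ (ε : ℝ) * (B * x - A) → (ε : ℝ) * (B * x - A) ≤ 1 / b →
        0 ≤ (ε : ℝ) * (a - b * x) → (ε : ℝ) * (a - b * x) ≤ 1 / B →
        |aeval x P| ≤ (1 + 2 * n * b) * (1 / (b : ℝ)) ^ n := by
  obtain ⟨P, hPd, hPc, hP⟩ := exists_poly a b A B ε hb hbB hco n (ε ^ n)
  have hbR : (2 : ℝ) ≤ b := by exact_mod_cast hb
  have hBR : (b : ℝ) ≤ B := by exact_mod_cast hbB
  have hεε : ε ^ n * ε ^ n = 1 := by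
    rw [← mul_pow]
    rcases hε with h | h <;> simp [h]
  rw [hεε] at hPc
  have hmon : P.Monic := monic_of_natDegree_le_of_coeff_eq_one n hPd hPc
  refine ⟨P, hmon, ?_, ?_⟩
  · refine le_antisymm hPd (le_natDegree_of_ne_zero ?_)
    rw [hPc]
    exact one_ne_zero
  · intro x h1 h2 h3 h4
    refine (hP x h1 h2 h3 h4).trans ?_
    have he : |((ε ^ n : ℤ) : ℝ)| = 1 := by
      push_cast
      rw [abs_pow]
      rcases hε with h | h <;> simp [h]
    rw [he, one_mul, add_mul, one_mul]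
    refine add_le_add ?_ le_rfl
    have hB0 : (0 : ℝ) < (b : ℝ) * B := mul_pos (by linarith) (by linarith)
    refine pow_le_pow_left₀ (one_div_nonneg.2 hB0.le) ?_ n
    refine one_div_le_one_div_of_le (by linarith) ?_
    nlinarith

/-! ### Endpoints and the two bounds -/

/-- The value at a non-integer rational point `a/b` is at least `b^{-n}`. -/
lemma endpoint_lower (a b : ℤ) (hb : 2 ≤ b) (hco : IsCoprime a b) (P : ℤ[X]) (hP : P.Monic) :
    (1 / (b : ℝ)) ^ P.natDegree ≤ |aeval ((a : ℝ) / b) P| := by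
  have hb0 : (0 : ℤ) < b := by omega
  have hbR : (0 : ℝ) < b := by exact_mod_cast hb0
  have key : eval ((a : ℝ) / b) (P.map (algebraMap ℤ ℝ)) ≠ 0 := by
    intro h0
    -- rational root theorem
    have hq : aeval ((a : ℚ) / b) P = 0 := by
      have h1 : aeval (algebraMap ℚ ℝ ((a : ℚ) / b)) P = algebraMap ℚ ℝ (aeval ((a : ℚ) / b) P) :=
        (aeval_algebraMap_apply ℝ ((a : ℚ) / b) P)
      have h2 : algebraMap ℚ ℝ ((a : ℚ) / b) = (a : ℝ) / b := by simp
      rw [h2, aeval_def, ← eval_map, h0] at h1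
      have h3 := h1.symm
      rwa [map_eq_zero] at h3
    obtain ⟨k, hk⟩ := isInteger_of_is_root_of_monic hP hq
    have hk' : (k : ℚ) = (a : ℚ) / b := by simpa using hk
    have hbQ : (b : ℚ) ≠ 0 := by exact_mod_cast hb0.ne'
    rw [eq_div_iff hbQ] at hk'
    have hkb : k * b = a := by exact_mod_cast hk'
    obtain ⟨u, v, huv⟩ := hco
    have : b ∣ 1 := ⟨u * k + v, by rw [← huv, ← hkb]; ring⟩
    have := Int.le_of_dvd one_pos this
    omega
  have h1 := one_le_pow_mul_abs_eval_div (K := ℝ) hb0 key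
  rw [eval_map, ← aeval_def] at h1
  rw [div_pow, one_pow, div_le_iff₀ (by positivity)]
  linarith

lemma aeval_ofReal (P : ℤ[X]) (x : ℝ) : ‖aeval (x : ℂ) P‖ = |aeval x P| := by
  have h := aeval_algebraMap_apply ℂ x P
  have h2 : (algebraMap ℝ ℂ) x = (x : ℂ) := rfl
  rw [h2] at h
  rw [h]
  simp

/-- The values `|P|` on a real interval are bounded above. -/
lemma bddAbove_interval (u v : ℝ) (P : ℤ[X]) :
    BddAbove ((fun z : ℂ => ‖aeval z P‖) '' realInterval u v) := by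
  have hc : IsCompact (realInterval u v) := isCompact_Icc.image Complex.continuous_ofReal
  have hcont : Continuous (fun z : ℂ => ‖aeval z P‖) := (P.continuous_aeval).norm
  exact (hc.image hcont).bddAbove

lemma mMonic_bddBelow (E : Set ℂ) (n : ℕ) :
    BddBelow {r : ℝ | ∃ P : ℤ[X], P.Monic ∧ P.natDegree = n ∧ r = maxAbs E P} := by
  refine ⟨0, ?_⟩
  rintro r ⟨P, _, _, rfl⟩
  apply Real.sSup_nonneg
  rintro _ ⟨z, _, rfl⟩
  exact norm_nonneg _

lemma mMonic_nonempty (E : Set ℂ) (n : ℕ) :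
    {r : ℝ | ∃ P : ℤ[X], P.Monic ∧ P.natDegree = n ∧ r = maxAbs E P}.Nonempty :=
  ⟨maxAbs E (X ^ n), X ^ n, monic_X_pow n, natDegree_X_pow n, rfl⟩

/-- Lower bound: each non-integer rational point `a/b` of the interval forces
`m_n ≥ b^{-n}`. -/
lemma mMonic_lower (u v : ℝ) (a b : ℤ) (hb : 2 ≤ b) (hco : IsCoprime a b)
    (hu : u ≤ (a : ℝ) / b) (hv : (a : ℝ) / b ≤ v) (n : ℕ) :
    (1 / (b : ℝ)) ^ n ≤ mMonic (realInterval u v) n := by
  refine le_csInf (mMonic_nonempty _ n) ?_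
  rintro r ⟨P, hP, rfl, rfl⟩
  refine (endpoint_lower a b hb hco P hP).trans ?_
  rw [← aeval_ofReal]
  exact le_csSup (bddAbove_interval u v P) ⟨_, ⟨_, ⟨hu, hv⟩, rfl⟩, rfl⟩

/-- Upper bound from a polynomial small on the interval. -/
lemma mMonic_upper (u v : ℝ) (huv : u ≤ v) (n : ℕ) (P : ℤ[X]) (hP : P.Monic)
    (hn : P.natDegree = n) (M : ℝ) (hM : ∀ x ∈ Set.Icc u v, |aeval x P| ≤ M) :
    mMonic (realInterval u v) n ≤ M := by
  refine (csInf_le (mMonic_bddBelow _ n) ⟨P, hP, hn, rfl⟩).trans ?_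
  refine csSup_le ?_ ?_
  · exact ⟨_, ⟨_, ⟨u, ⟨le_rfl, huv⟩, rfl⟩, rfl⟩⟩
  · rintro _ ⟨_, ⟨x, hx, rfl⟩, rfl⟩
    simp only [aeval_ofReal]
    exact hM x hx

/-- The squeeze: if `q^n ≤ m_n ≤ (1 + 2 n b) q^n` then `m_n^(1/n) → q`. -/
lemma tendsto_root (f : ℕ → ℝ) (q b : ℝ) (hq : 0 < q) (hb : 0 ≤ b)
    (h1 : ∀ n : ℕ, q ^ n ≤ f n) (h2 : ∀ n : ℕ, f n ≤ (1 + 2 * n * b) * q ^ n) :
    Tendsto (fun n : ℕ => (f n) ^ ((1 : ℝ) / n)) atTop (𝓝 q) := by
  have hroot : ∀ n : ℕ, 1 ≤ n → (q ^ n) ^ ((1 : ℝ) / n) = q := by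
    intro n hn
    rw [one_div]
    exact Real.pow_rpow_inv_natCast hq.le (by omega)
  have hlim : Tendsto (fun n : ℕ => (1 + 2 * (n : ℝ) * b) ^ ((1 : ℝ) / n) * q) atTop (𝓝 q) := by
    have hA : Tendsto (fun n : ℕ => ((1 + 2 * b) * (n : ℝ)) ^ ((1 : ℝ) / n)) atTop (𝓝 1) := by
      have e1 : Tendsto (fun n : ℕ => (1 + 2 * b) ^ ((1 : ℝ) / n)) atTop (𝓝 1) := by
        have h0 : Tendsto (fun n : ℕ => (1 : ℝ) / n) atTop (𝓝 0) :=
          tendsto_const_div_atTop_nhds_zero_nat 1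
        have hc : Continuous (fun y : ℝ => (1 + 2 * b) ^ y) :=
          Real.continuous_const_rpow (by positivity)
        have := (hc.tendsto 0).comp h0
        simpa [Function.comp_def] using this
      have e2 : Tendsto (fun n : ℕ => (n : ℝ) ^ ((1 : ℝ) / n)) atTop (𝓝 1) :=
        tendsto_rpow_div.comp tendsto_natCast_atTop_atTop
      have e3 := e1.mul e2
      rw [one_mul] at e3
      refine e3.congr ?_
      intro n
      rw [Real.mul_rpow (by positivity) (by positivity)]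
    have hB : Tendsto (fun n : ℕ => (1 + 2 * (n : ℝ) * b) ^ ((1 : ℝ) / n)) atTop (𝓝 1) := by
      refine tendsto_of_tendsto_of_tendsto_of_le_of_le' tendsto_const_nhds hA ?_ ?_
      · refine Eventually.of_forall ?_
        intro n
        refine Real.one_le_rpow ?_ (by positivity)
        have : 0 ≤ 2 * (n : ℝ) * b := by positivity
        linarith
      · filter_upwards [eventually_ge_atTop 1] with n hn
        have hnR : (1 : ℝ) ≤ n := by exact_mod_cast hn
        refine Real.rpow_le_rpow (by positivity) ?_ (by positivity)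
        nlinarith
    have := hB.mul_const q
    rwa [one_mul] at this
  refine tendsto_of_tendsto_of_tendsto_of_le_of_le' tendsto_const_nhds hlim ?_ ?_
  · filter_upwards [eventually_ge_atTop 1] with n hn
    calc q = (q ^ n) ^ ((1 : ℝ) / n) := (hroot n hn).symm
      _ ≤ (f n) ^ ((1 : ℝ) / n) := Real.rpow_le_rpow (by positivity) (h1 n) (by positivity)
  · filter_upwards [eventually_ge_atTop 1] with n hn
    have hf0 : 0 ≤ f n := le_trans (by positivity) (h1 n)
    calc (f n) ^ ((1 : ℝ) / n) ≤ ((1 + 2 * (n : ℝ) * b) * q ^ n) ^ ((1 : ℝ) / n) :=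
          Real.rpow_le_rpow hf0 (h2 n) (by positivity)
      _ = (1 + 2 * (n : ℝ) * b) ^ ((1 : ℝ) / n) * q := by
          rw [Real.mul_rpow (by positivity) (by positivity), hroot n hn]

/-- The core statement, for a pair `a/b`, `A/B` with `b < B` in either order. -/
lemma core (a b A B ε : ℤ) (hb : 2 ≤ b) (hbB : b < B) (hε : ε = 1 ∨ ε = -1)
    (hdet : a * B - A * b = ε) (u v : ℝ) (huv : u ≤ v)
    (hab : u ≤ (a : ℝ) / b ∧ (a : ℝ) / b ≤ v)
    (hx : ∀ x ∈ Set.Icc u v, 0 ≤ (ε : ℝ) * (B * x - A) ∧ 0 ≤ (ε : ℝ) * (a - b * x)) :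
    Tendsto (fun n : ℕ => (mMonic (realInterval u v) n) ^ ((1 : ℝ) / n)) atTop
      (𝓝 (1 / (b : ℝ))) := by
  have hbR : (2 : ℝ) ≤ b := by exact_mod_cast hb
  have hBR : (b : ℝ) < B := by exact_mod_cast hbB
  have hε2 : ε * ε = 1 := by rcases hε with h | h <;> simp [h]
  have hco : IsCoprime b B := ⟨-(ε * A), ε * a, by linear_combination ε * hdet + hε2⟩
  have hco2 : IsCoprime a b := ⟨ε * B, -(ε * A), by linear_combination ε * hdet + hε2⟩
  refine tendsto_root _ _ (b : ℝ) (by positivity) (by positivity) ?_ ?_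
  · intro n
    exact mMonic_lower u v a b hb hco2 hab.1 hab.2 n
  · intro n
    obtain ⟨P, hP, hn, hbd⟩ := exists_monic a b A B ε hb hbB.le hco hε n
    refine mMonic_upper u v huv n P hP hn _ ?_
    intro x hxI
    obtain ⟨hs, ht⟩ := hx x hxI
    have hsum : (b : ℝ) * ((ε : ℝ) * (B * x - A)) + B * ((ε : ℝ) * (a - b * x)) = 1 := by
      have h1 : (a : ℝ) * B - A * b = ε := by exact_mod_cast hdet
      have h2 : (ε : ℝ) * ε = 1 := by exact_mod_cast hε2
      linear_combination (ε : ℝ) * h1 + h2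
    refine hbd x hs ?_ ht ?_
    · rw [le_div_iff₀ (by linarith)]
      have : 0 ≤ (B : ℝ) * ((ε : ℝ) * (a - b * x)) := mul_nonneg (by linarith) ht
      linarith
    · rw [le_div_iff₀ (by linarith)]
      have : 0 ≤ (b : ℝ) * ((ε : ℝ) * (B * x - A)) := mul_nonneg (by linarith) hs
      linarith

/-- **The Borwein-Pinner-Pritsker conjecture.** For every Farey interval
`I = [a₁/b₁, a₂/b₂]` (integers `b₁, b₂ ≥ 2`, `|a₁ b₂ - a₂ b₁| = 1`, `a₁/b₁ < a₂/b₂`) the limit of
`m_n(I)^(1/n)` exists and the monic integer transfinite diameter is `max (1/b₁) (1/b₂)`. -/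
theorem result (a₁ b₁ a₂ b₂ : ℤ) (hb₁ : 2 ≤ b₁) (hb₂ : 2 ≤ b₂)
    (hdet : |a₁ * b₂ - a₂ * b₁| = 1) (hlt : (a₁ : ℝ) / b₁ < (a₂ : ℝ) / b₂) :
    Tendsto (fun n : ℕ =>
        (mMonic (realInterval ((a₁ : ℝ) / b₁) ((a₂ : ℝ) / b₂)) n) ^ ((1 : ℝ) / n)) atTop
      (𝓝 (max (1 / (b₁ : ℝ)) (1 / (b₂ : ℝ)))) ∧
    tauM (realInterval ((a₁ : ℝ) / b₁) ((a₂ : ℝ) / b₂)) = max (1 / (b₁ : ℝ)) (1 / (b₂ : ℝ)) := by
  have hb1 : (0 : ℝ) < b₁ := by
    have : (0 : ℤ) < b₁ := by omega
    exact_mod_cast this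
  have hb2 : (0 : ℝ) < b₂ := by
    have : (0 : ℤ) < b₂ := by omega
    exact_mod_cast this
  have hneg : a₁ * b₂ - a₂ * b₁ = -1 := by
    have h1 : (a₁ : ℝ) * b₂ < a₂ * b₁ := by
      rwa [div_lt_div_iff₀ hb1 hb2] at hlt
    have h2 : a₁ * b₂ < a₂ * b₁ := by exact_mod_cast h1
    rcases (abs_eq (zero_le_one)).1 hdet with h | h
    · omega
    · exact h
  have hne : b₁ ≠ b₂ := by
    rintro rfl
    have : b₁ ∣ 1 := ⟨a₂ - a₁, by linear_combination hneg⟩
    have := Int.le_of_dvd one_pos this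
    omega
  have hfacts : ∀ x ∈ Set.Icc ((a₁ : ℝ) / b₁) ((a₂ : ℝ) / b₂),
      (a₁ : ℝ) ≤ b₁ * x ∧ (b₂ : ℝ) * x ≤ a₂ := by
    rintro x ⟨h1, h2⟩
    rw [div_le_iff₀ hb1] at h1
    rw [le_div_iff₀ hb2] at h2
    constructor <;> linarith
  have main : Tendsto (fun n : ℕ =>
        (mMonic (realInterval ((a₁ : ℝ) / b₁) ((a₂ : ℝ) / b₂)) n) ^ ((1 : ℝ) / n)) atTop
      (𝓝 (max (1 / (b₁ : ℝ)) (1 / (b₂ : ℝ)))) := by
    rcases lt_or_gt_of_ne hne with hlt' | hgt'
    · have hmax : max (1 / (b₁ : ℝ)) (1 / (b₂ : ℝ)) = 1 / (b₁ : ℝ) := by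
        refine max_eq_left (one_div_le_one_div_of_le hb1 ?_)
        exact_mod_cast hlt'.le
      rw [hmax]
      refine core a₁ b₁ a₂ b₂ (-1) hb₁ hlt' (Or.inr rfl) hneg _ _ hlt.le ⟨le_rfl, hlt.le⟩ ?_
      intro x hx
      obtain ⟨h1, h2⟩ := hfacts x hx
      push_cast
      constructor <;> linarith
    · have hmax : max (1 / (b₁ : ℝ)) (1 / (b₂ : ℝ)) = 1 / (b₂ : ℝ) := by
        refine max_eq_right (one_div_le_one_div_of_le hb2 ?_)
        exact_mod_cast hgt'.le
      rw [hmax]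
      refine core a₂ b₂ a₁ b₁ 1 hb₂ hgt' (Or.inl rfl) (by linear_combination -hneg) _ _ hlt.le
        ⟨hlt.le, le_rfl⟩ ?_
      intro x hx
      obtain ⟨h1, h2⟩ := hfacts x hx
      push_cast
      constructor <;> linarith
  exact ⟨main, main.limUnder_eq⟩

end Pool.Agent.Results.MP_1bffc6_nt.FareyFull
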